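import Pool.Agent.Y874.TP2.Pic

/-!
# TP2-W234: walks in pictures
-/

set_option autoImplicit false
set_option linter.all false

namespace Pool.Agent.Y710.TP2

open Pool.Agent.Y874.TP2
open Pool.Agent.Y874.TP2.Pic

variable {X K : Type} {P : Pic X K}

theorem opp_symm {q : List X} {a b : X} (h : Opp q a b) : Opp q b a := by
  obtain ⟨x₀, x₁, x₂, x₃, hq, h⟩ := h
  refine ⟨x₀, x₁, x₂, x₃, hq, ?_⟩
  tauto

theorem opp_mem {q : List X} {a b : X} (h : Opp q a b) : a ∈ q := by
  obtain ⟨x₀, x₁, x₂, x₃, rfl, h⟩ := h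
  rcases h with h | h | h | h <;> rw [h.1] <;> simp

theorem mem_flat {q : List X} (hq : q ∈ P.Q) {a b : X} (h : Opp q a b) : a ∈ P.Q.flatten :=
  List.mem_flatten.2 ⟨q, hq, opp_mem h⟩

theorem opp_dart {q : List X} (hq : q ∈ P.Q) {a b : X} (h : Opp q a b) : P.dart a :=
  Or.inr (mem_flat hq h)

theorem not_bd (hP : P.Good) {q : List X} (hq : q ∈ P.Q) {a b : X} (h : Opp q a b) :
    a ∉ P.B.flatten := by
  intro ha
  have h1 := (List.nodup_append.1 hP.nd).2.2
  exact h1 a ha a (mem_flat hq h) rfl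

theorem opp_uniq (hP : P.Good) {q q' : List X} (hq : q ∈ P.Q) (hq' : q' ∈ P.Q) {d e e' : X}
    (h : Opp q d e) (h' : Opp q' d e') : q = q' ∧ e = e' := by
  have h1 := (List.nodup_append.1 hP.nd).2.1
  rw [List.nodup_flatten] at h1
  obtain ⟨h2, h3⟩ := h1
  have e1 : q = q' := by
    by_contra hne
    haveI : Std.Symm (fun a b : List X => a.Disjoint b) := ⟨fun a b hab => List.Disjoint.symm hab⟩
    exact (h3.forall hq hq' hne) (opp_mem h) (opp_mem h')
  refine ⟨e1, ?_⟩
  subst e1
  obtain ⟨x₀, x₁, x₂, x₃, hq1, h⟩ := h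
  obtain ⟨y₀, y₁, y₂, y₃, hq2, h'⟩ := h'
  have h5 := h2 q hq
  rw [hq1] at h5 hq2
  simp only [List.cons.injEq, and_true] at hq2
  obtain ⟨rfl, rfl, rfl, rfl⟩ := hq2
  simp only [List.nodup_cons, List.mem_cons, List.not_mem_nil, or_false, not_or,
    not_false_eq_true, List.nodup_nil, and_true] at h5
  obtain ⟨⟨a1, a2, a3⟩, ⟨a4, a5⟩, a6⟩ := h5
  rcases h with ⟨rfl, rfl⟩ | ⟨rfl, rfl⟩ | ⟨rfl, rfl⟩ | ⟨rfl, rfl⟩ <;>
  rcases h' with ⟨b1, b2⟩ | ⟨b1, b2⟩ | ⟨b1, b2⟩ | ⟨b1, b2⟩ <;>
  first
    | exact b2.symm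
    | exact absurd b1 (by first | exact a1 | exact a2 | exact a3 | exact a4 | exact a5 | exact a6)
    | exact absurd b1.symm (by first | exact a1 | exact a2 | exact a3 | exact a4 | exact a5 | exact a6)

theorem opp_sg (hP : P.Good) {q : List X} (hq : q ∈ P.Q) {a b : X} (h : Opp q a b) :
    P.sg b = -P.sg a ∧ P.κ b = P.κ a := by
  obtain ⟨y₀, y₁, y₂, y₃, hq2, s1, s2, k1, k2, -⟩ := hP.four q hq
  obtain ⟨x₀, x₁, x₂, x₃, hq1, h⟩ := h
  rw [hq1] at hq2
  simp only [List.cons.injEq, and_true] at hq2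
  obtain ⟨rfl, rfl, rfl, rfl⟩ := hq2
  rcases h with ⟨rfl, rfl⟩ | ⟨rfl, rfl⟩ | ⟨rfl, rfl⟩ | ⟨rfl, rfl⟩
  · exact ⟨s1, k1⟩
  · exact ⟨by rw [s1, neg_neg], k1.symm⟩
  · exact ⟨s2, k2⟩
  · exact ⟨by rw [s2, neg_neg], k2.symm⟩

theorem w2 : S_W2 := by
  intro X K P hP x L z hx hw
  induction hw with
  | done x h =>
    refine ⟨by simp, by simp, h, hP.sgσ x hx, ?_, ?_, ?_, ?_⟩
    · intro d hd
      simp only [List.mem_cons, List.not_mem_nil, or_false] at hd
      rcases hd with rfl | rfl
      · exact ⟨hx, rfl⟩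
      · exact ⟨hP.dartσ _ hx, hP.κσ _ hx⟩
    · intro d hd
      simp only [List.mem_cons, List.not_mem_nil, or_false] at hd ⊢
      rcases hd with rfl | rfl
      · exact Or.inr rfl
      · exact Or.inl (hP.invσ _ hx)
    · intro d hd _
      simpa using hd
    · intro q hq d e ho hd hdx
      simp only [List.mem_cons, List.not_mem_nil, or_false] at hd
      rcases hd with rfl | rfl
      · exact absurd rfl hdx
      · exact absurd h (not_bd hP hq ho)
  | step x x' z q L hq ho hw ih =>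
    obtain ⟨i1, i2, i3, i4, i5, i6, i7, i8⟩ := ih (opp_dart hq (opp_symm ho))
    obtain ⟨o1, o2⟩ := opp_sg hP hq ho
    have s1 : P.sg x' = P.sg x := by rw [o1, hP.sgσ x hx, neg_neg]
    have s2 : P.κ x' = P.κ x := by rw [o2, hP.κσ x hx]
    refine ⟨by simp, List.mem_cons_of_mem _ (List.mem_cons_of_mem _ i2), i3, by rw [i4, s1],
      ?_, ?_, ?_, ?_⟩
    · intro d hd
      simp only [List.mem_cons] at hd
      rcases hd with rfl | rfl | hd
      · exact ⟨hx, rfl⟩
      · exact ⟨hP.dartσ _ hx, hP.κσ _ hx⟩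
      · exact ⟨(i5 d hd).1, (i5 d hd).2.trans s2⟩
    · intro d hd
      simp only [List.mem_cons] at hd ⊢
      rcases hd with rfl | rfl | hd
      · exact Or.inr (Or.inl rfl)
      · exact Or.inl (hP.invσ _ hx)
      · exact Or.inr (Or.inr (i6 d hd))
    · intro d hd hb
      simp only [List.mem_cons] at hd
      rcases hd with rfl | rfl | hd
      · exact Or.inl rfl
      · exact absurd hb (not_bd hP hq ho)
      · rcases i7 d hd hb with rfl | rfl
        · exact absurd hb (not_bd hP hq (opp_symm ho))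
        · exact Or.inr rfl
    · intro q' hq' d e ho' hd hdx
      simp only [List.mem_cons] at hd ⊢
      rcases hd with rfl | rfl | hd
      · exact absurd rfl hdx
      · rw [← (opp_uniq hP hq hq' ho ho').2]
        exact Or.inr (Or.inr i1)
      · by_cases hdx' : d = x'
        · subst hdx'
          rw [← (opp_uniq hP hq hq' (opp_symm ho) ho').2]
          exact Or.inr (Or.inl rfl)
        · exact Or.inr (Or.inr (i8 q' hq' d e ho' hd hdx'))

theorem w3 : S_W3 := by
  intro X K P hP x L z hx hw S hS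
  induction hw with
  | done x h =>
    intro he
    have h1 : x ∈ S := by
      obtain ⟨e, he, heS⟩ := he
      simp only [List.mem_cons, List.not_mem_nil, or_false] at he
      rcases he with rfl | rfl
      · exact heS
      · have := hS.2.1 _ heS
        rwa [hP.invσ _ hx] at this
    intro e he
    simp only [List.mem_cons, List.not_mem_nil, or_false] at he
    rcases he with rfl | rfl
    · exact h1
    · exact hS.2.1 _ h1
  | step x x' z q L hq ho hw ih =>
    intro he
    have hx' : P.dart x' := opp_dart hq (opp_symm ho)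
    have i := ih hx'
    have m := (w2 X K P hP x' L z hx' hw).1
    have h1 : x ∈ S := by
      obtain ⟨e, he, heS⟩ := he
      simp only [List.mem_cons] at he
      have h2 : P.σ x ∈ S → x ∈ S := fun h => by
        have := hS.2.1 _ h
        rwa [hP.invσ _ hx] at this
      rcases he with rfl | rfl | he
      · exact heS
      · exact h2 heS
      · exact h2 (hS.2.2 q hq x' _ (opp_symm ho) (i ⟨e, he, heS⟩ x' m))
    have h2 : P.σ x ∈ S := hS.2.1 _ h1
    have h3 : x' ∈ S := hS.2.2 q hq _ x' ho h2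
    intro e he
    simp only [List.mem_cons] at he
    rcases he with rfl | rfl | he
    · exact h1
    · exact h2
    · exact i ⟨x', m, h3⟩ e he

theorem shorter (hP : P.Good) {x z : X} {L : List X} (hw : P.Walk x L z) :
    P.dart x → ∀ q ∈ P.Q, ∀ e e', Opp q e e' → e ∈ L → P.sg e = -P.sg x →
    ∃ L2 : List X, L2.length < L.length ∧ P.Walk e' L2 z := by
  induction hw with
  | done x h =>
    intro hx q hq e e' ho he hs
    simp only [List.mem_cons, List.not_mem_nil, or_false] at he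
    rcases he with rfl | rfl
    · exfalso
      rcases hP.sg1 _ hx with h1 | h1 <;> rw [h1] at hs <;> norm_num at hs
    · exact absurd h (not_bd hP hq ho)
  | step x x' z q₁ L hq₁ ho₁ hw ih =>
    intro hx q hq e e' ho he hs
    simp only [List.mem_cons] at he
    rcases he with rfl | rfl | he
    · exfalso
      rcases hP.sg1 _ hx with h1 | h1 <;> rw [h1] at hs <;> norm_num at hs
    · rw [← (opp_uniq hP hq₁ hq ho₁ ho).2]
      exact ⟨L, by simp, hw⟩
    · have s1 : P.sg x' = P.sg x := by rw [(opp_sg hP hq₁ ho₁).1, hP.sgσ x hx, neg_neg]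
      obtain ⟨L2, l1, l2⟩ := ih (opp_dart hq₁ (opp_symm ho₁)) q hq e e' ho he (by rw [hs, s1])
      exact ⟨L2, by simp only [List.length_cons]; omega, l2⟩

theorem w4 : S_W4 := by
  intro X K P hP x L z hw q hq x' ho
  have hx : P.dart x := opp_dart hq ho
  induction hn : L.length using Nat.strong_induction_on generalizing L with
  | _ n ih =>
    by_cases hx' : x' ∈ L
    · obtain ⟨L2, l1, l2⟩ := shorter hP hw hx q hq x' x (opp_symm ho) hx' (opp_sg hP hq ho).1
      exact ih L2.length (hn ▸ l1) L2 l2 rfl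
    · exact ⟨L, hw, hx'⟩

end Pool.Agent.Y710.TP2
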